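import Pool.Agent.Helper20.FQ.Typ
import Pool.Agent.Helper78.BM.Phi

/-!
# Project FQ (MP_0f6f3f_an), assembly: full mass

`norm_of_type`: if the vectors `V_{b n} 1` have the type `j` then the component of `vec b` over the stratum of type `j` has norm one. `p_of_type`: the mass of a boundary map is one.
-/

set_option autoImplicit false
set_option linter.unusedSectionVars false

open MeasureTheory Filter Topology

namespace Pool.Agent.Helper55.FQ

open Pool.Agent.Helper84.NI Pool.Agent.Helper84.GVN Pool.Agent.Helper90.RK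
open Pool.Agent.Helper84.GN hiding toReg
open Pool.Agent.Helper84.GN.S3 (PD)
open Pool.Agent.Helper96.RK Pool.Agent.Helper66.FR Pool.Agent.Helper84.FR Pool.Agent.Helper96.FR Pool.Agent.Helper55.FR
open Pool.Agent.Helper43.TA Pool.Agent.Helper43.FQ Pool.Agent.Helper9.FQ Pool.Agent.Helper20.FQ Pool.Agent.Helper78.BM

variable {G1 X G Λ : Type} [Group G1] [TopologicalSpace G1] [IsTopologicalGroup G1] [MeasurableSpace X] {μ : Measure X}
  [MulAction G1 X] [MeasurableConstSMul G1 X] [SMulInvariantMeasure G1 X μ] [IsProbabilityMeasure μ]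
  [Group G] [Group Λ] [Countable Λ] {a : Cocy G1 X Λ} {E : Emb Λ G} {r : ℕ} {A : Gp G r}

theorem inner_of_mass {j : Fin r} {b : ℕ → G1} {R : ℕ} {β : ℝ}
    (h : ∀ L : ℕ, ∀ᶠ n in atTop, β ≤ mass μ a E (one A j R L) (b n)) :
    ∃ η ∈ XUa μ (A.reg (Finset.univ.erase j)), ‖η‖ ≤ 1 ∧ β ≤ (inner ℂ η (vec μ a E b) : ℂ).re := by
  have h1 : ∀ L : ℕ, β ≤ ms μ a E (one A j R L) b := fun L =>
    ge_of_tendsto (ms_eq_lim (μ := μ) (a := a) (E := E) (one A j R L) b) ((h L).filter_mono Nat.hyperfilter_le_atTop)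
  obtain ⟨η, hη, hlim⟩ := lim_vec (μ := μ) (A.reg (Finset.univ.erase j)) R (A := fun L => one A j R L) (one_anti j R)
    (fun s hs => by
      obtain ⟨m, hm⟩ := A.mem_FF.1 hs
      refine ⟨m, fun γ hγ => hm ⟨fun i hi => hγ.2 i (Finset.mem_erase.1 hi).1, fun i hi => ?_⟩⟩
      have hij : i = j := by
        by_contra hne
        exact hi (Finset.mem_erase.2 ⟨hne, Finset.mem_univ _⟩)
      subst hij
      exact hγ.1.le) (vec μ a E b)
  refine ⟨η, hη, ?_, ?_⟩
  · refine le_of_tendsto hlim.norm (Eventually.of_forall fun L => ?_)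
    have h2 := dist_C (μ := μ) (Set.subset_univ (one A j R L)) (vec μ a E b)
    rw [C_univ, norm_vec] at h2
    have h3 : 0 ≤ ‖vec μ a E b - UE.map μ (ind ℂ (one A j R L)) (vec μ a E b)‖ ^ 2 := by positivity
    exact (sq_le_one_iff₀ (norm_nonneg _)).1 (by linarith)
  · have h5 : Tendsto (fun L => (inner ℂ (UE.map μ (ind ℂ (one A j R L)) (vec μ a E b)) (vec μ a E b) : ℂ)) atTop
        (𝓝 (inner ℂ η (vec μ a E b))) := hlim.inner tendsto_const_nhds
    have h6 : ∀ L : ℕ, (inner ℂ (UE.map μ (ind ℂ (one A j R L)) (vec μ a E b)) (vec μ a E b) : ℂ) =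
        ((ms μ a E (one A j R L) b : ℝ) : ℂ) := by
      intro L
      have h7 := inner_C (μ := μ) (Set.subset_univ (one A j R L)) (vec μ a E b)
      rw [C_univ] at h7
      rw [← inner_conj_symm, h7, Complex.conj_ofReal]
      rfl
    have h9 := (Complex.continuous_re.tendsto (inner ℂ η (vec μ a E b) : ℂ)).comp h5
    refine ge_of_tendsto h9 (Eventually.of_forall fun L => ?_)
    rw [Function.comp_apply, h6, Complex.ofReal_re]
    exact h1 L

/-- Full mass. -/
theorem norm_of_type {j : Fin r} {b : ℕ → G1} (h : IsType μ a E A b atTop j) :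
    ‖XPpr (A.reg (Finset.univ.erase j)) (vec μ a E b)‖ = 1 := by
  refine le_antisymm ?_ ?_
  · have h1 := norm_XPpr_le (R := A.reg (Finset.univ.erase j)) (vec μ a E b)
    rwa [norm_vec] at h1
  · refine le_of_forall_pos_sub_le fun β hβ => ?_
    obtain ⟨R, hR⟩ := h β hβ
    obtain ⟨η, hη, h1, h2⟩ := inner_of_mass hR
    have h3 : (inner ℂ η (vec μ a E b) : ℂ) = inner ℂ (⟨η, hη⟩ : XUa μ (A.reg (Finset.univ.erase j))) (XPpr (A.reg (Finset.univ.erase j)) (vec μ a E b)) :=
      inner_XPpr (A.reg (Finset.univ.erase j)) (vec μ a E b) ⟨η, hη⟩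
    rw [h3] at h2
    refine h2.trans ((Complex.re_le_norm _).trans ((norm_inner_le_norm _ _).trans ?_))
    have h4 : ‖(⟨η, hη⟩ : XUa μ (A.reg (Finset.univ.erase j)))‖ ≤ 1 := h1
    exact mul_le_of_le_one_left (norm_nonneg _) h4

/-- The mass of a boundary map is one. -/
theorem p_of_type {j : Fin r} {b : ℕ → G1} {pd : PD G} (h : IsType μ a E A b atTop j)
    (B : BMap μ a E (A.reg (Finset.univ.erase j)) pd b) : B.p = 1 := by
  have h1 := B.inner_T (cst μ (dl 1)) (cst μ (dl 1))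
  rw [Tb_one, inner_self_eq_norm_sq_to_K, inner_self_eq_norm_sq_to_K, norm_of_type h] at h1
  have h2 : ‖(cst μ (dl 1) : XL μ (L2 G))‖ = 1 := by
    rw [LinearIsometry.norm_map, norm_dl]
  rw [h2] at h1
  norm_num at h1
  exact_mod_cast h1.symm

end Pool.Agent.Helper55.FQ
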