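import Pool.Agent.Helper55.FQ.Top1
import Pool.Agent.Helper55.FQ.Full
import Pool.Agent.Helper52.FQ.Int

/-!
# Project FQ (MP_0f6f3f_an, full question): the configuration

`Cf θ θ' A A' τ τ' al al' W W' D D' μ a E`: one direction: source `autC b` with the lattice `Γ`, the cocycle `a` and the section, target `autC b'` with the lattice `Λ`, embedding `E` of `L(Γ)` onto `L(Λ)`.
-/

set_option autoImplicit false
set_option linter.unusedSectionVars false

open Filter Topology MeasureTheory Matrix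

namespace Pool.Agent.Helper55.FQ

open Pool.Agent.Helper84.NI Pool.Agent.Helper84.GVN Pool.Agent.Helper90.RK
open Pool.Agent.Helper96.RK Pool.Agent.Helper66.FR Pool.Agent.Helper84.FR Pool.Agent.Helper55.FR Pool.Agent.Helper78.BM
open Pool.Agent.Helper35.TZ (autC isAdj_autC)
open Pool.Agent.Helper84.GDL (GD SI)
open Pool.Agent.Helper45.FQ (HC pE ds_pE)
open Pool.Agent.Helper55.OB (Cyc)

variable {L L' : Type} [LieRing L] [LieAlgebra ℝ L] [LieRing L'] [LieAlgebra ℝ L'] {N N' : ℕ} {r : ℕ}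
  {b : Module.Basis (Fin N) ℝ L} {b' : Module.Basis (Fin N') ℝ L'} [MeasurableSpace (autC b)] [BorelSpace (autC b)]
  {Γ : Subgroup (autC b)} {Λ : Subgroup (autC b')} [Countable Γ] [Countable Λ]
  {X : Type} [MeasurableSpace X] [MulAction (autC b) X] [MeasurableConstSMul (autC b) X]

/-- One direction. -/
structure Cf (θ : L ≃ₗ⁅ℝ⁆ L) (θ' : L' ≃ₗ⁅ℝ⁆ L') (A : Submodule ℝ L) (A' : Submodule ℝ L') (τ : Module.Dual ℝ A ≃ₗ[ℝ] A) (τ' : Module.Dual ℝ A' ≃ₗ[ℝ] A')
    (al : Fin r → Module.Dual ℝ A) (al' : Fin r → Module.Dual ℝ A') (W : Fin r → A) (W' : Fin r → A')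
    (D : GD (autC b) (Fin r)) (D' : GD (autC b') (Fin r)) (μ : Measure X) [SMulInvariantMeasure (autC b) X μ] [IsProbabilityMeasure μ]
    (a : Cocy (autC b) X Γ) (E : Emb Γ Λ) : Prop where
  /-- the rank is at least two -/
  h2 : 2 ≤ r
  simple : LieAlgebra.IsSimple ℝ L
  simple' : LieAlgebra.IsSimple ℝ L'
  G : Gr θ b A τ al W D
  G' : Gr θ' b' A' τ' al' W' D'
  lat : Pool.Agent.Helper96.FR.Lattice Γ
  lat' : Pool.Agent.Helper96.FR.Lattice Λ
  hf : ∀ R : ℝ, {k : Γ | ∀ i, D.mu (k : autC b) i ≤ R}.Finite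
  hf' : ∀ R : ℝ, {k : Λ | ∀ i, D'.mu (k : autC b') i ≤ R}.Finite
  si : SI D Γ
  si' : SI D' Λ
  cyc : Cyc μ a E
  hc : ∃ (hm : Measure (autC b)) (σ : X → autC b), HC μ a.a Γ.subtype hm σ ∧ Pool.Agent.Helper52.FQ.Unq Γ.subtype σ

end Pool.Agent.Helper55.FQ
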