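import Pool.Agent.Helper55.OB.Cyc
import Pool.Agent.Helper45.FQ.Loc6
import Pool.Agent.Helper20.FQ.Typ
import Pool.Agent.Helper68.FQ.Reix
import Pool.Agent.Helper77.FQ.Cow

/-!
# Project FQ (MP_0f6f3f_an, full question): common definitions of the assembly

`Gr θ b A τ al W D`: one group `autC b`: simple system `al`, fundamental coweights `W`, group data `D` (helper84's `GD`) with the flat `D.ea c = exp (∑ c i W i)`.
`gG D Γ`: the gaps of the elements of a subgroup. `wn D u`: the sequence `exp (n W u)`. `Mt`: the node `u` of the source is matched to the node `s u` of the target.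
-/

set_option autoImplicit false
set_option linter.unusedSectionVars false

open Filter Topology MeasureTheory Matrix

namespace Pool.Agent.Helper55.FQ

open Pool.Agent.Helper84.NI Pool.Agent.Helper84.GVN Pool.Agent.Helper90.RK
open Pool.Agent.Helper96.RK Pool.Agent.Helper66.FR Pool.Agent.Helper84.FR Pool.Agent.Helper55.FR Pool.Agent.Helper78.BM
open Pool.Agent.Helper96.SA Pool.Agent.Helper96.TO
open Pool.Agent.Helper35.TZ (autC isAdj_autC)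
open Pool.Agent.Helper84.GDL (GD SI)
open Pool.Agent.Helper45.FQ (HC pE)
open Pool.Agent.Helper55.OB (Cyc)
open Pool.Agent.Helper43.FQ (Gp)

section Gr

variable {L : Type} [LieRing L] [LieAlgebra ℝ L] {N : ℕ} {r : ℕ}

/-- The data of one group. -/
structure Gr (θ : L ≃ₗ⁅ℝ⁆ L) (b : Module.Basis (Fin N) ℝ L) (A : Submodule ℝ L) (τ : Module.Dual ℝ A ≃ₗ[ℝ] A)
    (al : Fin r → Module.Dual ℝ A) (W : Fin r → A) (D : GD (autC b) (Fin r)) : Prop where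
  s : Pool.Agent.Helper25.AE.SD θ b A τ al
  cmb : Pool.Agent.Helper68.FQ.Cmb A al
  hW : ∀ i j, al i (W j) = if i = j then 1 else 0
  ea : ∀ c, D.ea c = Pool.Agent.Helper77.FQ.eaG (isAdj_autC b) W c
  K : ∀ g : autC b, g ∈ D.K ↔ ((g : GL (Fin N) ℝ) : Matrix (Fin N) (Fin N) ℝ)ᵀ * ((g : GL (Fin N) ℝ) : Matrix (Fin N) (Fin N) ℝ) = 1
  low : ∀ l, ∃ i, ∀ j, D.n l i j = if j = l then 1 else 0
  dn : ∀ j, Dense {g : autC b | D.rho j g 0 0 ≠ 0}
  top0 : ∀ u k, k ≠ u → ∑ i, D.top u i * al i (τ (al k)) = 0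
  top1 : ∀ u, ∑ i, D.top u i * al i (τ (al u)) ≠ 0
  rhoT : ∀ l (g g' : autC b), ((g' : GL (Fin N) ℝ) : Matrix (Fin N) (Fin N) ℝ) = ((g : GL (Fin N) ℝ) : Matrix (Fin N) (Fin N) ℝ)ᵀ →
    D.rho l g' = (D.rho l g)ᵀ
  irr : ∀ (l : Fin r) (S : Submodule ℝ (Fin (D.d l + 1) → ℝ)), (∀ g, ∀ w ∈ S, D.rho l g *ᵥ w ∈ S) → S = ⊥ ∨ S = ⊤

variable {𝔾 : Type} [Group 𝔾] [TopologicalSpace 𝔾]

/-- The gaps of the elements of a subgroup. -/
noncomputable def gG (D : GD 𝔾 (Fin r)) (Γ : Subgroup 𝔾) (l : Γ) (i : Fin r) : ℝ := D.mu (l : 𝔾) i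

/-- The sequence `exp (n W u)`. -/
noncomputable def wn (D : GD 𝔾 (Fin r)) (u : Fin r) (n : ℕ) : 𝔾 := D.ea (Pi.single u (n : ℝ))

/-- The gap functions of a discrete subgroup. -/
noncomputable def gp (D : GD 𝔾 (Fin r)) [IsTopologicalGroup 𝔾] (Γ : Subgroup 𝔾) (hf : ∀ R : ℝ, {l : Γ | ∀ i, D.mu (l : 𝔾) i ≤ R}.Finite) :
    Gp Γ r where
  gap := gG D Γ
  nonneg l i := D.mu_nonneg _ _
  gshift g h := by
    obtain ⟨R, hR0, hR⟩ := D.mu_shift (B := {((g : 𝔾))⁻¹, (h : 𝔾)}) (Set.Finite.isCompact (Set.toFinite _))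
    obtain ⟨C, hC⟩ := exists_nat_ge R
    refine ⟨C, fun l i => ?_⟩
    have h1 : |D.mu ((g : 𝔾)⁻¹ * l * h) i - D.mu (l : 𝔾) i| ≤ R := hR _ (by simp) _ (by simp) _ _
    have h2 := abs_le.1 h1
    have e : gG D Γ (g⁻¹ * l * h) i = D.mu ((g : 𝔾)⁻¹ * l * h) i := by
      unfold gG
      rw [Subgroup.coe_mul, Subgroup.coe_mul, Subgroup.coe_inv]
    rw [e]
    unfold gG
    constructor <;> linarith [h2.1, h2.2]
  gfin n := hf n

end Gr

section Dir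

variable {𝔾 𝔾' : Type} [Group 𝔾] [TopologicalSpace 𝔾] [IsTopologicalGroup 𝔾] [Group 𝔾'] [TopologicalSpace 𝔾'] [IsTopologicalGroup 𝔾'] {r : ℕ}
  {X : Type} [MeasurableSpace X] [MulAction 𝔾 X] {Γ : Subgroup 𝔾} {Λ : Subgroup 𝔾'}

/-- **Matching**: the mass of `V_{w_u^n}` concentrates on the elements of type `s u`. -/
def Mt (μ : Measure X) [MeasurableConstSMul 𝔾 X] [SMulInvariantMeasure 𝔾 X μ] [IsProbabilityMeasure μ] (a : Cocy 𝔾 X Γ) [Countable Γ] (E : Emb Γ Λ)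
    (D : GD 𝔾 (Fin r)) (D' : GD 𝔾' (Fin r)) (hf : ∀ R : ℝ, {k : Λ | ∀ i, D'.mu (k : 𝔾') i ≤ R}.Finite) (s : Fin r → Fin r) : Prop :=
  ∀ u : Fin r, Pool.Agent.Helper20.FQ.IsType μ a E (gp D' Λ hf) (wn D u) atTop (s u)

end Dir

end Pool.Agent.Helper55.FQ
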