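import Pool.Agent.Helper85.KL.Gap

/-!
# Project FQ (MP_0f6f3f_an), assembly: from the sandwiches of all nodes to `KL.Nodes`

`exists_tail`: a probability is tight. `tight_of_ker`: the one gap elements are seen at one gap elements (field `tight` of `KL.Nodes`), from the kernel lemma, one element with bounded gaps and the finiteness of the sets of bounded gaps.
`exists_nodes`: `KL.Nodes` in both directions from the sandwiches.
-/

set_option autoImplicit false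

namespace Pool.Agent.Helper55.FQ

open Set Pool.Agent.Helper85.KL

variable {A B I : Type}

theorem mass_compl {w : A → ℝ} (hw : PW w) (s : Set A) : mass w sᶜ = 1 - mass w s := by
  have h1 : mass w s + mass w sᶜ = 1 := by
    unfold mass
    rw [← (hw.summ s).tsum_add (hw.summ sᶜ), ← hw.sum.tsum_eq]
    refine tsum_congr fun a => ?_
    have h2 := congrFun (indicator_self_add_compl s w) a
    exact h2
  linarith

theorem mass_finset {w : A → ℝ} (s : Finset A) : mass w (s : Set A) = ∑ a ∈ s, w a := by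
  unfold mass
  rw [tsum_eq_sum (s := s) fun a ha => indicator_of_notMem (fun h => ha (Finset.mem_coe.1 h)) _]
  exact Finset.sum_congr rfl fun a ha => indicator_of_mem (Finset.mem_coe.2 ha) _

/-- A probability is tight. -/
theorem exists_tail [Finite I] {w : A → ℝ} (hw : PW w) (f : A → I → ℝ) {ε : ℝ} (hε : 0 < ε) :
    ∃ C : ℝ, mass w {a | ∃ v, C < f a v} ≤ ε := by
  classical
  have := Fintype.ofFinite I
  obtain ⟨s, hs⟩ : ∃ s : Finset A, 1 - ε < ∑ a ∈ s, w a :=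
    ((hw.sum.eventually (lt_mem_nhds (by linarith : 1 - ε < 1))).exists)
  refine ⟨∑ a ∈ s, ∑ v, |f a v|, le_trans (hw.mass_mono (T := (s : Set A)ᶜ) ?_) ?_⟩
  · rintro a ⟨v, hv⟩ ha
    have ha' : a ∈ s := Finset.mem_coe.1 ha
    have h1 : |f a v| ≤ ∑ v, |f a v| := Finset.single_le_sum (f := fun v => |f a v|) (fun v _ => abs_nonneg _) (Finset.mem_univ v)
    have h2 : ∑ v, |f a v| ≤ ∑ a ∈ s, ∑ v, |f a v| :=
      Finset.single_le_sum (f := fun a => ∑ v, |f a v|) (fun a _ => Finset.sum_nonneg fun v _ => abs_nonneg _) ha'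
    linarith [le_abs_self (f a v)]
  · rw [mass_compl hw, mass_finset]
    linarith

/-- **One gap elements.** -/
theorem tight_of_ker [Finite I] {p : A → B → ℝ} {a1 : A → I → ℝ} {b1 : B → I → ℝ} {θ : A → Set B → ℝ} {θ' : B → Set A → ℝ}
    {q : A → B} {q' : B → A} (hp : DS p) {i : I} (hk : Ker p (nr a1 i) (fun a => a1 a i) (nr b1 i) (fun b => b1 b i) θ q q')
    (hk' : Ker (fun b a => p a b) (nr b1 i) (fun b => b1 b i) (nr a1 i) (fun a => a1 a i) θ' q' q)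
    (hb0 : ∀ b j, 0 ≤ b1 b j) (b₀ : B) (fb : ∀ R : ℝ, {b | ∀ j, b1 b j ≤ R}.Finite) :
    ∀ ε > 0, ∀ C : ℝ, ∃ C' : ℝ, ∀ b, (∀ j, j ≠ i → b1 b j ≤ C) → mass (fun a => p a b) {a | ∃ v, v ≠ i ∧ C' < a1 a v} ≤ ε := by
  classical
  have := Fintype.ofFinite I
  intro ε hε C
  obtain ⟨L, C₁, h1⟩ := hk.loc ε hε
  obtain ⟨K, hK⟩ : ∃ K : ℝ, K = |C| + ∑ j, |b1 b₀ j| := ⟨_, rfl⟩
  obtain ⟨D₁, hD⟩ := hk'.lip K
  obtain ⟨C₂, hC₂⟩ : ∃ C₂ : ℝ, C₂ = C₁ + D₁ + ∑ v, |a1 (q' b₀) v| := ⟨_, rfl⟩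
  have hfin := fb (max C L)
  have h2 : ∀ b : B, ∃ C₃ : ℝ, mass (fun a => p a b) {a | ∃ v, C₃ < a1 a v} ≤ ε := fun b => exists_tail (hp.col b) a1 hε
  choose C₃ hC₃ using h2
  obtain ⟨C₄, hC₄⟩ : ∃ C₄ : ℝ, C₄ = ∑ b ∈ hfin.toFinset, |C₃ b| := ⟨_, rfl⟩
  refine ⟨max C₂ C₄, fun b hb => ?_⟩
  by_cases hL : L ≤ b1 b i
  · refine le_trans ((hp.col b).mass_mono ?_) (h1 b hL)
    rintro a ⟨v, hv, hav⟩ hc
    have hnr : nr b1 i K b b₀ := by
      intro j hj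
      have h3 := hb j hj
      have h4 := hb0 b j
      have h5 : |b1 b₀ j| ≤ ∑ j, |b1 b₀ j| := Finset.single_le_sum (f := fun j => |b1 b₀ j|) (fun v _ => abs_nonneg _) (Finset.mem_univ j)
      have h6 := le_abs_self C
      have h7 := neg_abs_le (b1 b₀ j)
      have h8 := le_abs_self (b1 b₀ j)
      rw [abs_le, hK]
      have h9 := abs_nonneg C
      constructor <;> linarith
    have h3 := hD b b₀ hnr v hv
    have h4 := hc v hv
    have h5 : |a1 (q' b₀) v| ≤ ∑ v, |a1 (q' b₀) v| :=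
      Finset.single_le_sum (f := fun v => |a1 (q' b₀) v|) (fun v _ => abs_nonneg _) (Finset.mem_univ v)
    have h6 := le_abs_self (a1 (q' b₀) v)
    have h7 := (abs_le.1 h3).2
    have h8 := (abs_le.1 h4).2
    have h9 := le_max_left C₂ C₄
    linarith
  · push Not at hL
    have hbF : b ∈ hfin.toFinset := by
      rw [Finite.mem_toFinset]
      intro j
      by_cases hj : j = i
      · rw [hj]
        exact hL.le.trans (le_max_right _ _)
      · exact (hb j hj).trans (le_max_left _ _)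
    refine le_trans ((hp.col b).mass_mono ?_) (hC₃ b)
    rintro a ⟨v, hv, hav⟩
    refine ⟨v, lt_of_le_of_lt (le_trans (le_abs_self _) (le_trans ?_ (le_max_right C₂ C₄))) hav⟩
    rw [hC₄]
    exact Finset.single_le_sum (f := fun b => |C₃ b|) (fun b _ => abs_nonneg _) hbF

/-- **The data of all nodes**, both directions, from the sandwiches. -/
theorem exists_nodes [Finite I] {p : A → B → ℝ} {a1 : A → I → ℝ} {b1 : B → I → ℝ} {θ : I → A → Set B → ℝ} {θ' : I → B → Set A → ℝ}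
    (hp : DS p) (h : ∀ i, Sand p (nr a1 i) (fun a => a1 a i) (nr b1 i) (fun b => b1 b i) (θ i))
    (h' : ∀ i, Sand (fun b a => p a b) (nr b1 i) (fun b => b1 b i) (nr a1 i) (fun a => a1 a i) (θ' i))
    (ha0 : ∀ a j, 0 ≤ a1 a j) (hb0 : ∀ b j, 0 ≤ b1 b j) (a₀ : A) (b₀ : B)
    (fa : ∀ R : ℝ, {a | ∀ j, a1 a j ≤ R}.Finite) (fb : ∀ R : ℝ, {b | ∀ j, b1 b j ≤ R}.Finite)
    (ea : ∀ i, ∃ C₀ : ℝ, 0 ≤ C₀ ∧ ∀ a, ∀ L : ℝ, 0 ≤ L → ∃ a', nr a1 i C₀ a a' ∧ L ≤ a1 a' i ∧ a1 a' i ≤ L + C₀)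
    (eb : ∀ i, ∃ C₀ : ℝ, 0 ≤ C₀ ∧ ∀ b, ∀ L : ℝ, 0 ≤ L → ∃ b', nr b1 i C₀ b b' ∧ L ≤ b1 b' i ∧ b1 b' i ≤ L + C₀) :
    ∃ (q : I → A → B) (q' : I → B → A), Nodes p a1 b1 θ q q' ∧ Nodes (fun b a => p a b) b1 a1 θ' q' q := by
  have h1 : ∀ i, ∃ (q : A → B) (q' : B → A), Ker p (nr a1 i) (fun a => a1 a i) (nr b1 i) (fun b => b1 b i) (θ i) q q' ∧
      Ker (fun b a => p a b) (nr b1 i) (fun b => b1 b i) (nr a1 i) (fun a => a1 a i) (θ' i) q' q :=
    fun i => exists_ker hp (near_nr a1 i) (near_nr b1 i) (h i) (h' i)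
  choose q q' hq using h1
  have hp' : DS fun b a => p a b := ⟨hp.col, hp.row⟩
  refine ⟨q, q', ⟨fun i => (hq i).1, fun i => ?_, eb⟩, ⟨fun i => (hq i).2, fun i => ?_, ea⟩⟩
  · exact tight_of_ker hp (hq i).1 (hq i).2 hb0 b₀ fb
  · exact tight_of_ker hp' (hq i).2 (hq i).1 ha0 a₀ fa

end Pool.Agent.Helper55.FQ
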