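import Pool.Agent.Helper55.FQ.Top1

/-!
# Project FQ (MP_0f6f3f_an): assembly, renaming of the nodes

`Loc.reindex`: the same renaming on both sides. `Loc.rev`: from the direction `E` to the direction `E'`.
-/

set_option autoImplicit false
set_option linter.unusedSectionVars false

namespace Pool.Agent.Helper55.FQ

open Pool.Agent.Helper85.KL

variable {A B : Type} {r : ℕ} {p : A → B → ℝ} {a1 : A → Fin r → ℝ} {b1 : B → Fin r → ℝ} {f f' : Fin r → ℝ → ℝ}

theorem SizeMap.reindex (hp : ∀ a, PW (p a)) (h : SizeMap p a1 b1 f) (σ : Fin r ≃ Fin r) :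
    SizeMap p (fun a i => a1 a (σ i)) (fun b i => b1 b (σ i)) (fun i => f (σ i)) where
  one ε hε := by
    obtain ⟨L, C, h1⟩ := h.one ε hε
    refine ⟨L, C, fun u a ha => ((hp a).mass_mono ?_).trans (h1 (σ u) a ha)⟩
    rintro b ⟨i, hi, hb⟩
    exact ⟨σ i, fun hc => hi (σ.injective hc), hb⟩
  two ε hε := by
    obtain ⟨L, C, h1⟩ := h.two ε hε
    refine ⟨L, C, fun u v a huv hu hv => ((hp a).mass_mono ?_).trans (h1 (σ u) (σ v) a (fun hc => huv (σ.injective hc)) hu hv)⟩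
    rintro b ⟨i, hb⟩
    exact ⟨σ i, hb⟩
  nonneg i t := h.nonneg _ t
  lip C := by
    obtain ⟨D, hD, h1⟩ := h.lip C
    exact ⟨D, hD, fun i s t hs ht hst => h1 _ s t hs ht hst⟩

theorem nf_reindex {A : Type} (a1 : A → Fin r → ℝ) (σ : Fin r ≃ Fin r) : nf (fun a i => a1 a (σ i)) = nf a1 := by
  funext C x y
  refine propext ⟨fun h v => ?_, fun h v => h (σ v)⟩
  have h1 := h (σ.symm v)
  simpa only [σ.apply_symm_apply] using h1

theorem all_reindex {A : Type} (a1 : A → Fin r → ℝ) (σ : Fin r ≃ Fin r) (R : ℝ) (a : A) : (∀ i, R ≤ a1 a (σ i)) ↔ ∀ i, R ≤ a1 a i := by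
  refine ⟨fun h v => ?_, fun h v => h (σ v)⟩
  have h1 := h (σ.symm v)
  rwa [σ.apply_symm_apply] at h1

theorem BiLoc.reindex {ρ : B → A} (h : BiLoc p a1 b1 ρ) (σ : Fin r ≃ Fin r) :
    BiLoc p (fun a i => a1 a (σ i)) (fun b i => b1 b (σ i)) ρ where
  loc ε hε := by
    obtain ⟨R, C, h1⟩ := h.loc ε hε
    refine ⟨R, C, fun b hb => ?_⟩
    rw [nf_reindex]
    exact h1 b ((all_reindex b1 σ R b).1 hb)
  reg R := by
    obtain ⟨R', h1⟩ := h.reg R
    exact ⟨R', fun b hb i => h1 b ((all_reindex b1 σ R' b).1 hb) (σ i)⟩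
  lip C := by
    obtain ⟨R, D, h1⟩ := h.lip C
    refine ⟨R, D, fun b b' hb hb' hbb => ?_⟩
    rw [nf_reindex] at hbb ⊢
    exact h1 b b' ((all_reindex b1 σ R b).1 hb) ((all_reindex b1 σ R b').1 hb') hbb

theorem Loc.reindex (hp : DS p) (h : Loc p a1 b1 f f') (σ : Fin r ≃ Fin r) :
    Loc p (fun a i => a1 a (σ i)) (fun b i => b1 b (σ i)) (fun i => f (σ i)) (fun i => f' (σ i)) where
  size := SizeMap.reindex hp.row h.size σ
  size' := SizeMap.reindex hp.col h.size' σ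
  inv := by
    obtain ⟨C, hC, h1⟩ := h.inv
    exact ⟨C, hC, fun i t ht => h1 _ t ht⟩
  inv' := by
    obtain ⟨C, hC, h1⟩ := h.inv'
    exact ⟨C, hC, fun i t ht => h1 _ t ht⟩
  bil := by
    obtain ⟨ρ, ρ', h1, h2, ⟨R, C, h3⟩, ⟨R', C', h4⟩⟩ := h.bil
    refine ⟨ρ, ρ', BiLoc.reindex h1 σ, BiLoc.reindex h2 σ, ⟨R, C, fun a ha => ?_⟩, ⟨R', C', fun b hb => ?_⟩⟩
    · rw [nf_reindex]
      exact h3 a ((all_reindex a1 σ R a).1 ha)
    · rw [nf_reindex]
      exact h4 b ((all_reindex b1 σ R' b).1 hb)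

/-- The reverse direction. -/
theorem Loc.rev {p' : B → A → ℝ} (hp : DS p) (hd : ∀ a b, p' b a = p a b) {e : Fin r ≃ Fin r} (h : Loc p a1 (fun b i => b1 b (e i)) f f') :
    Loc p' b1 (fun a i => a1 a (e.symm i)) (fun i => f' (e.symm i)) (fun i => f (e.symm i)) := by
  have hp' : DS fun b a => p a b := ⟨hp.col, hp.row⟩
  have h1 := Loc.reindex hp' h.swap e.symm
  have e1 : (fun (b : B) i => b1 b (e (e.symm i))) = b1 := by
    funext b i
    rw [e.apply_symm_apply]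
  have e2 : p' = fun b a => p a b := by
    funext b a
    exact hd a b
  rw [e1, ← e2] at h1
  exact h1

end Pool.Agent.Helper55.FQ
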