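import Pool.Agent.Helper17.FQ.Sand0
import Pool.Agent.Helper17.FQ.Tn
import Pool.Agent.Helper13.FQ.CfNI
import Pool.Agent.Helper11.FQ.CfLF
import Pool.Agent.Helper7.FQ.CfDD

/-!
# Project FQ (MP_0f6f3f_an): the sandwich for a configuration
-/

set_option autoImplicit false
set_option linter.unusedSectionVars false

open Filter Topology MeasureTheory Matrix

namespace Pool.Agent.Helper55.FQ

open Pool.Agent.Helper84.NI Pool.Agent.Helper84.GVN Pool.Agent.Helper90.RK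
open Pool.Agent.Helper96.RK Pool.Agent.Helper66.FR Pool.Agent.Helper84.FR Pool.Agent.Helper55.FR Pool.Agent.Helper78.BM
open Pool.Agent.Helper96.SA Pool.Agent.Helper96.TO Pool.Agent.Helper66.RKS Pool.Agent.Helper69.SLN
open Pool.Agent.Helper35.TZ (autC isAdj_autC)
open Pool.Agent.Helper84.GDL (GD SI)
open Pool.Agent.Helper45.FQ (HC pE ds_pE)
open Pool.Agent.Helper55.OB (Cyc)
open Pool.Agent.Helper43.FQ (Gp)
open Pool.Agent.Helper85.KL

variable {L L' : Type} [LieRing L] [LieAlgebra ℝ L] [LieRing L'] [LieAlgebra ℝ L'] {N N' : ℕ} {r : ℕ}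
  {θ : L ≃ₗ⁅ℝ⁆ L} {θ' : L' ≃ₗ⁅ℝ⁆ L'} {b : Module.Basis (Fin N) ℝ L} {b' : Module.Basis (Fin N') ℝ L'}
  {A : Submodule ℝ L} {A' : Submodule ℝ L'} {τ : Module.Dual ℝ A ≃ₗ[ℝ] A} {τ' : Module.Dual ℝ A' ≃ₗ[ℝ] A'}
  {al : Fin r → Module.Dual ℝ A} {al' : Fin r → Module.Dual ℝ A'} {W : Fin r → A} {W' : Fin r → A'}
  {D : GD (autC b) (Fin r)} {D' : GD (autC b') (Fin r)} [MeasurableSpace (autC b)] [BorelSpace (autC b)]
  {Γ : Subgroup (autC b)} {Λ : Subgroup (autC b')} [Countable Γ] [Countable Λ]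
  {X : Type} [MeasurableSpace X] [MulAction (autC b) X] [MeasurableConstSMul (autC b) X] {μ : Measure X}
  [SMulInvariantMeasure (autC b) X μ] [IsProbabilityMeasure μ] {a : Cocy (autC b) X Γ} {E : Emb Γ Λ}

/-- **The sandwich** at the node `u`, of type `s u`. -/
theorem Cf.sand (C : Cf θ θ' A A' τ τ' al al' W W' D D' μ a E) {s : Fin r → Fin r} (hs : Mt μ a E D D' C.hf' s) (u : Fin r) :
    ∃ th : Γ → Set Λ → ℝ, Sand (pE E) (nr (gG D Γ) u) (fun l => gG D Γ l u) (nr (gG D' Λ) (s u)) (fun k => gG D' Λ k (s u)) th ∧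
      ∀ l, Pool.Agent.Helper20.FQ.TightN (gG D' Λ) (s u) (th l) := by
  obtain ⟨hm, σ, hd, hL⟩ := C.dat
  have hdt : DiscreteTopology Λ := C.lat'.1
  obtain ⟨i1, i2, i3⟩ := Pool.Agent.Helper35.TZ.lcs_autC b
  have hD := hd u
  have hT := hs u
  rw [← Pool.Agent.Helper11.FQ.wn_pow] at hT
  exact ⟨Pool.Agent.Helper17.FQ.th μ a E (D.ea (Pi.single u 1)),
    Pool.Agent.Helper17.FQ.sand_of (A := gp D' Λ C.hf') hD hL (Pool.Agent.Helper13.FQ.Cf.ins C hs u hD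
      (Pool.Agent.Helper11.FQ.Cf.lfr_nd C C.G'.low u (s u) _) (Pool.Agent.Helper11.FQ.Cf.lfl_nd C C.G'.low u (s u) _)),
    fun l => Pool.Agent.Helper17.FQ.tight_th (A := gp D' Λ C.hf') hD.hc hD.unq hD.h3 (Pool.Agent.Helper17.FQ.wh_of hD) hL hT l⟩

end Pool.Agent.Helper55.FQ
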