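import Pool.Agent.Helper55.FQ.Sand
import Pool.Agent.Helper20.FQ.StG
import Pool.Agent.Helper55.FQ.Rx
import Pool.Agent.Helper66.BD.Fin
import Pool.Agent.Helper35.TZ.Fin2
import Pool.Agent.Helper84.GD.Gr
import Pool.Agent.Helper72.FQ.Coc
import Pool.Agent.Helper85.FQ.Loc
import Pool.Agent.Helper45.FQ.Pkg
import Pool.Agent.Helper45.FQ.Bmap
import Pool.Agent.Helper60.FQ.Second

/-!
# Project FQ (MP_0f6f3f_an, full question): the assembly

`final`: lattices of the automorphism groups of two simple real Lie algebras of real rank at least two whose group von Neumann algebras are isomorphic: the Lie algebras are isomorphic.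
-/

set_option autoImplicit false
set_option linter.unusedSectionVars false

open Filter Topology MeasureTheory Matrix

namespace Pool.Agent.Helper55.FQ

open Pool.Agent.Helper84.NI Pool.Agent.Helper84.GVN Pool.Agent.Helper90.RK
open Pool.Agent.Helper96.RK Pool.Agent.Helper66.FR Pool.Agent.Helper84.FR Pool.Agent.Helper55.FR Pool.Agent.Helper78.BM
open Pool.Agent.Helper96.SA Pool.Agent.Helper96.TO Pool.Agent.Helper66.RKS Pool.Agent.Helper69.SLN
open Pool.Agent.Helper35.TZ (autC isAdj_autC)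
open Pool.Agent.Helper84.GDL (GD SI)
open Pool.Agent.Helper45.FQ (HC pE ds_pE)
open Pool.Agent.Helper55.OB (Cyc)
open Pool.Agent.Helper85.KL

variable {L L' : Type} [LieRing L] [LieAlgebra ℝ L] [LieRing L'] [LieAlgebra ℝ L'] {N N' : ℕ} {θ : L ≃ₗ⁅ℝ⁆ L} {θ' : L' ≃ₗ⁅ℝ⁆ L'}
  {b : Module.Basis (Fin N) ℝ L} {b' : Module.Basis (Fin N') ℝ L'}

/-- **The full question, for lattices of the automorphism groups.** -/
theorem final [LieAlgebra.IsSimple ℝ L] (h : CartanBasis θ b) [LieAlgebra.IsSimple ℝ L'] (h' : CartanBasis θ' b')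
    (h2 : 2 ≤ rankL θ) (h2' : 2 ≤ rankL θ') {Γ : Subgroup (autC b)} (hL : Pool.Agent.Helper96.FR.Lattice Γ)
    {Λ : Subgroup (autC b')} (hL' : Pool.Agent.Helper96.FR.Lattice Λ) (hiso : IsoL Γ Λ) : Nonempty (L ≃ₗ⁅ℝ⁆ L') := by
  classical
  have he : rankL θ = rankL θ' := Pool.Agent.Helper66.BD.aut_iso h h' (isAdj_autC b) (isAdj_autC b') (by omega) (by omega) hL hL' hiso
  obtain ⟨A, τ, al, W, D, G, hSI⟩ := Pool.Agent.Helper84.GDL.exists_gr h (r := rankL θ) rfl h2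
  obtain ⟨A', τ', al', W', D', G', hSI'⟩ := Pool.Agent.Helper84.GDL.exists_gr h' he.symm h2
  obtain ⟨i1, i2, i3⟩ := Pool.Agent.Helper35.TZ.lcs_autC b
  obtain ⟨i1', i2', i3'⟩ := Pool.Agent.Helper35.TZ.lcs_autC b'
  let m1 : MeasurableSpace (autC b) := borel _
  let m1' : MeasurableSpace (autC b') := borel _
  have b1 : BorelSpace (autC b) := ⟨rfl⟩
  have b1' : BorelSpace (autC b') := ⟨rfl⟩
  have hfr : Module.finrank ℝ A = rankL θ := finrank_eq_rankL h (isAdj_autC b) G.s.hA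
  have icc : IsICC Γ := Pool.Agent.Helper35.TZ.icc_autC h G.s.hA (by omega) hL
  obtain ⟨icc', E, E', hcf, dual', ⟨X, mX, act, i4, ν, i5, hν, hcount, a, hm, σ, pk⟩,
    ⟨X', mX', act', i4', ν', i5', hν', hcount', a', hm', σ', pk'⟩⟩ := Pool.Agent.Helper45.FQ.exists_pkg hL hL' icc hiso
  have dual : ∀ l k, pE E' k l = pE E l k := fun l k => dual' k l
  have hC : Cyc ν a E := pk.cyc
  have hC' : Cyc ν' a' E' := pk'.cyc
  have C : Cf θ θ' A A' τ τ' al al' W W' D D' ν a E :=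
    ⟨h2, inferInstance, inferInstance, G, G', hL, hL', G.fin Γ hL.1, G'.fin Λ hL'.1, hSI Γ hL, hSI' Λ hL', hC, ⟨hm, σ, pk.hc, pk.unq⟩⟩
  have C' : Cf θ' θ A' A τ' τ al' al W' W D' D ν' a' E' :=
    ⟨h2, inferInstance, inferInstance, G', G, hL', hL, G'.fin Λ hL'.1, G.fin Γ hL.1, hSI' Λ hL', hSI Γ hL, hC', ⟨hm', σ', pk'.hc, pk'.unq⟩⟩
  obtain ⟨s, hs⟩ := C.st
  obtain ⟨t, ht⟩ := C'.st
  obtain ⟨e, hes, het, f, f', hl⟩ := Pool.Agent.Helper85.FQ.loc_of C C' dual (fun u => C.sand hs u) (fun u => C'.sand ht u)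
  have hs' : Mt ν a E D D' C.hf' e := by
    have e1 : (e : Fin (rankL θ) → Fin (rankL θ)) = s := funext hes
    rw [e1]
    exact hs
  have ht' : Mt ν' a' E' D' D C'.hf' e.symm := by
    have e1 : (e.symm : Fin (rankL θ) → Fin (rankL θ)) = t := funext het
    rw [e1]
    exact ht
  exact Pool.Agent.Helper60.FQ.second_half C C' hl (fun u => C.bmap hs' hl u)
    (fun u => C'.bmap ht' (Loc.rev (ds_pE C.cyc.full) dual hl) u)

end Pool.Agent.Helper55.FQ
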