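import Pool.Agent.Helper55.FQ.Defs
import Pool.Agent.Helper20.FQ.Match
import Pool.Agent.Helper85.KL.Tight
import Pool.Agent.Helper85.FQ.SzMass

/-!
# Project FQ (MP_0f6f3f_an): assembly, first half

`exists_loc`: from the sandwiches in both directions (with the types `s`, `t` of the nodes) to the bijection `e` of the nodes, the bi-localisation and the size maps.
-/

set_option autoImplicit false
set_option linter.unusedSectionVars false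

open Filter Topology MeasureTheory Matrix

namespace Pool.Agent.Helper55.FQ

open Pool.Agent.Helper84.NI Pool.Agent.Helper84.GVN Pool.Agent.Helper90.RK
open Pool.Agent.Helper96.RK Pool.Agent.Helper66.FR Pool.Agent.Helper84.FR Pool.Agent.Helper55.FR Pool.Agent.Helper78.BM
open Pool.Agent.Helper84.GDL (GD SI)
open Pool.Agent.Helper45.FQ (HC pE ds_pE)
open Pool.Agent.Helper85.KL
open Pool.Agent.Helper20.FQ (TightN exists_match sand_re)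

/-- The conclusions of the first half. -/
structure Loc {A B : Type} {r : ℕ} (p : A → B → ℝ) (a1 : A → Fin r → ℝ) (b1 : B → Fin r → ℝ) (f f' : Fin r → ℝ → ℝ) : Prop where
  size : SizeMap p a1 b1 f
  size' : SizeMap (fun b a => p a b) b1 a1 f'
  inv : ∃ C : ℝ, 0 ≤ C ∧ ∀ i t, 0 ≤ t → |f' i (f i t) - t| ≤ C
  inv' : ∃ C : ℝ, 0 ≤ C ∧ ∀ i t, 0 ≤ t → |f i (f' i t) - t| ≤ C
  bil : ∃ (r : B → A) (r' : A → B), BiLoc p a1 b1 r ∧ BiLoc (fun b a => p a b) b1 a1 r' ∧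
    (∃ R C : ℝ, ∀ a, (∀ i, R ≤ a1 a i) → nf a1 C a (r (r' a))) ∧ ∃ R C : ℝ, ∀ b, (∀ i, R ≤ b1 b i) → nf b1 C b (r' (r b))

theorem Loc.swap {A B : Type} {r : ℕ} {p : A → B → ℝ} {a1 : A → Fin r → ℝ} {b1 : B → Fin r → ℝ} {f f' : Fin r → ℝ → ℝ}
    (h : Loc p a1 b1 f f') : Loc (fun b a => p a b) b1 a1 f' f := by
  obtain ⟨r, r', h1, h2, h3, h4⟩ := h.bil
  exact ⟨h.size', h.size, h.inv', h.inv, ⟨r', r, h2, h1, h4, h3⟩⟩

/-- **First half**, abstract. -/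
theorem exists_loc {A B : Type} [Nonempty A] [Nonempty B] {r : ℕ} (hr : 2 ≤ r) {p : A → B → ℝ} {a1 : A → Fin r → ℝ} {b1 : B → Fin r → ℝ}
    {s t : Fin r → Fin r} (hp : DS p) (ha : ∀ a i, 0 ≤ a1 a i) (hb : ∀ b i, 0 ≤ b1 b i)
    (hfa : ∀ C : ℝ, {a | ∀ v, a1 a v ≤ C}.Finite) (hfb : ∀ C : ℝ, {b | ∀ v, b1 b v ≤ C}.Finite)
    (h : ∀ u, ∃ th : A → Set B → ℝ, Sand p (nr a1 u) (fun a => a1 a u) (nr b1 (s u)) (fun b => b1 b (s u)) th ∧ ∀ a, TightN b1 (s u) (th a))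
    (h' : ∀ j, ∃ th : B → Set A → ℝ, Sand (fun b a => p a b) (nr b1 j) (fun b => b1 b j) (nr a1 (t j)) (fun a => a1 a (t j)) th ∧
      ∀ b, TightN a1 (t j) (th b))
    (extA : ∀ i, ∃ C₀ : ℝ, 0 ≤ C₀ ∧ ∀ a, ∀ L : ℝ, 0 ≤ L → ∃ a', nr a1 i C₀ a a' ∧ L ≤ a1 a' i ∧ a1 a' i ≤ L + C₀)
    (extB : ∀ i, ∃ C₀ : ℝ, 0 ≤ C₀ ∧ ∀ b, ∀ L : ℝ, 0 ≤ L → ∃ b', nr b1 i C₀ b b' ∧ L ≤ b1 b' i ∧ b1 b' i ≤ L + C₀) :
    ∃ e : Fin r ≃ Fin r, (∀ u, e u = s u) ∧ (∀ j, e.symm j = t j) ∧ ∃ f f' : Fin r → ℝ → ℝ, Loc p a1 (fun b i => b1 b (e i)) f f' := by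
  have hN : Nontrivial (Fin r) := Fin.nontrivial_iff_two_le.2 hr
  choose th h1 h2 using h
  choose th' h1' h2' using h'
  have hA : ∀ i, ∀ L : ℝ, ∃ a, L ≤ a1 a i := fun i L => by
    obtain ⟨C₀, -, h3⟩ := extA i
    obtain ⟨a', -, h4, -⟩ := h3 (Classical.arbitrary A) |L| (abs_nonneg L)
    exact ⟨a', (le_abs_self L).trans h4⟩
  have hB : ∀ i, ∀ L : ℝ, ∃ b, L ≤ b1 b i := fun i L => by
    obtain ⟨C₀, -, h3⟩ := extB i
    obtain ⟨b', -, h4, -⟩ := h3 (Classical.arbitrary B) |L| (abs_nonneg L)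
    exact ⟨b', (le_abs_self L).trans h4⟩
  obtain ⟨e, he, he'⟩ := exists_match hp ha hb h1 h1' h2 h2' hA hB
  obtain ⟨h3, h3'⟩ := sand_re h1 h1' e he he'
  have hfb' : ∀ C : ℝ, {b | ∀ v, b1 b (e v) ≤ C}.Finite := fun C => by
    refine (hfb C).subset fun b hb v => ?_
    have h4 := hb (e.symm v)
    rwa [e.apply_symm_apply] at h4
  have extB' : ∀ i, ∃ C₀ : ℝ, 0 ≤ C₀ ∧ ∀ b, ∀ L : ℝ, 0 ≤ L → ∃ b', nr (fun b v => b1 b (e v)) i C₀ b b' ∧ L ≤ b1 b' (e i) ∧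
      b1 b' (e i) ≤ L + C₀ := fun i => by
    rw [Pool.Agent.Helper20.FQ.nr_re e i]
    exact extB (e i)
  obtain ⟨q, q', rr, rr', n1, n2, b1', b2', i1, i2, -, -⟩ := exists_all hp ha (fun b v => hb b (e v)) hfa hfb' h3 h3' extA extB'
  obtain ⟨f, f', s1, s2, v1, v2, -, -⟩ := exists_size hp ha (fun b v => hb b (e v)) n1 n2
  exact ⟨e, he, he', f, f', s1, s2, v1, v2, rr, rr', b1', b2', i1, i2⟩

end Pool.Agent.Helper55.FQ
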